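import Pool.Agent.Helper48.FB.Defs
import Pool.Agent.Helper53.WR.Tower

/-!
# Project FB, piece FB-21 (C1 `fi_step`): the invariant of the recursion
-/

set_option autoImplicit false

namespace Pool.Agent.Helper64.FB

open Finset
open Pool.Agent.Helper53.WR
open Pool.Agent.Helper48.FB
open Pool.Agent.Helper30.WR (card_class_le_one)

/-! ### Pairs from unions -/

lemma mem_crossF {X Y : Finset ℕ} {n : ℕ} {z : ℕ × ℕ} :
    z ∈ crossF X Y n ↔ (z.1 ∈ X ∧ z.2 ∈ Y) ∧ z.1 + z.2 = n := by
  unfold crossF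
  rw [mem_filter, mem_product]

lemma repF_eq (X : Finset ℕ) (n : ℕ) : repF X n = (crossF X X n).card := rfl

lemma cross_comm (X Y : Finset ℕ) (n : ℕ) : (crossF X Y n).card = (crossF Y X n).card := by
  refine card_bij (fun z _ => (z.2, z.1)) ?_ ?_ ?_
  · intro z hz
    rw [mem_crossF] at hz ⊢
    exact ⟨⟨hz.1.2, hz.1.1⟩, by rw [add_comm]; exact hz.2⟩
  · intro z _ w _ h
    have h1 := congrArg Prod.fst h
    have h2 := congrArg Prod.snd h
    exact Prod.ext h2 h1
  · intro z hz
    rw [mem_crossF] at hz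
    exact ⟨(z.2, z.1), mem_crossF.mpr ⟨⟨hz.1.2, hz.1.1⟩, by rw [add_comm]; exact hz.2⟩, rfl⟩

lemma cross_union (X Y Z : Finset ℕ) (n : ℕ) :
    (crossF (X ∪ Y) Z n).card ≤ (crossF X Z n).card + (crossF Y Z n).card := by
  refine le_trans (card_le_card ?_) (card_union_le _ _)
  intro z hz
  rw [mem_crossF, mem_union] at hz
  rw [mem_union, mem_crossF, mem_crossF]
  rcases hz with ⟨⟨h | h, h2⟩, h3⟩
  · exact Or.inl ⟨⟨h, h2⟩, h3⟩
  · exact Or.inr ⟨⟨h, h2⟩, h3⟩

lemma cross_union3 (O A R Z : Finset ℕ) (n : ℕ) :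
    (crossF (O ∪ A ∪ R) Z n).card ≤
      (crossF O Z n).card + (crossF A Z n).card + (crossF R Z n).card :=
  (cross_union _ _ _ _).trans (Nat.add_le_add_right (cross_union _ _ _ _) _)

lemma repF_union3 (O A R : Finset ℕ) (n : ℕ) :
    repF (O ∪ A ∪ R) n ≤ repF O n + repF A n + repF R n + 2 * (crossF A O n).card +
      2 * (crossF R O n).card + 2 * (crossF R A n).card := by
  simp only [repF_eq]
  have h0 := cross_union3 O A R (O ∪ A ∪ R) n
  have h1 := cross_union3 O A R O n
  have h2 := cross_union3 O A R A n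
  have h3 := cross_union3 O A R R n
  have c1 := cross_comm O (O ∪ A ∪ R) n
  have c2 := cross_comm A (O ∪ A ∪ R) n
  have c3 := cross_comm R (O ∪ A ∪ R) n
  have c4 := cross_comm O A n
  have c5 := cross_comm O R n
  have c6 := cross_comm A R n
  omega

lemma cross_zero_of_lt {X Y : Finset ℕ} {n : ℕ} (h : ∀ x ∈ X, ∀ y ∈ Y, x + y < n) :
    (crossF X Y n).card = 0 := by
  rw [card_eq_zero, eq_empty_iff_forall_notMem]
  intro z hz
  rw [mem_crossF] at hz
  have := h _ hz.1.1 _ hz.1.2
  omega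

lemma cross_zero_of_gt {X Y : Finset ℕ} {n : ℕ} (h : ∀ x ∈ X, n < x) :
    (crossF X Y n).card = 0 := by
  rw [card_eq_zero, eq_empty_iff_forall_notMem]
  intro z hz
  rw [mem_crossF] at hz
  have := h _ hz.1.1
  omega

/-! ### Windows of unions -/

lemma win_union (X Y : Finset ℕ) (y h : ℕ) :
    (win (X ∪ Y) y h).card ≤ (win X y h).card + (win Y y h).card := by
  unfold win
  rw [filter_union]
  exact card_union_le _ _

lemma winLe_union {X Y : Finset ℕ} {W V : ℕ} (hX : WinLe X W) (hY : WinLe Y V) :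
    WinLe (X ∪ Y) (W + V) := by
  intro y h
  have h1 := hX y h
  have h2 := hY y h
  have h3 := Nat.mul_le_mul_right (2 ^ (Nat.log 2 y / 2)) (win_union X Y y h)
  rw [add_mul] at h3 ⊢
  omega

lemma winLe_mono {X : Finset ℕ} {W V : ℕ} (hX : WinLe X W) (h : W ≤ V) : WinLe X V :=
  fun y h' => (hX y h').trans (Nat.mul_le_mul_right _ h)

/-- FB-C1 (one stage). -/
theorem fi_step {a u e t κ w f : ℕ → ℕ} (h : FTow a u e t κ w) (k : ℕ) (q : ℕ → ℕ)
    (hq : ∀ i, (q i).Prime ∧ 2 ^ (a i) < q i ∧ q i ≤ 2 ^ (a i + 1)) (B O A A' R : Finset ℕ)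
    (hO : FI a u e κ q k O) (hA : FW a u e t κ f q B k O A A') (hR : FR a u e t κ q k O A R) :
    FI a u e κ q (k + 1) (O ∪ A ∪ R) := by
  have hN := h.tow
  have hstep := hN.step k
  have he := hN.e300 k
  have heu := hN.eu k
  have hua := hN.ua k
  have huu := hN.uu k
  have huu' := hN.uu' k
  have hkk := hN.kk' k
  have hu42 := h.u42 k
  have hcr := h.cr k
  have h20 := hN.h20 k
  have hκ1 : 1 ≤ κ k := by
    have h1 := hN.hκ k
    by_contra h2
    have h3 : κ k = 0 := by omega
    rw [h3, mul_zero] at h1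
    omega
  -- positions
  have hRlt : ∀ x ∈ R, x < 2 ^ (4 * a k + 8 * u k + 64 * e k + 12) := by
    intro x hx
    have h1 := (hR.rng x hx).2
    have h2 : LR a u e k = 4 * a k + 8 * u k + 64 * e k + 12 := by
      unfold LR thT; ring
    rw [h2] at h1
    exact h1
  have hOlt : ∀ x ∈ O, x < 2 ^ (4 * a k + 8 * u k + 64 * e k + 12) := fun x hx =>
    lt_of_lt_of_le (hO.bd x hx) (Nat.pow_le_pow_right (by norm_num) (by omega))
  have hz' : zR a u (k + 1) = 4 * a k + 4 * u k + 8 * u (k + 1) - 24 := by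
    unfold zR
    omega
  have hbd : ∀ o ∈ O ∪ A ∪ R, o < 2 ^ (4 * a (k + 1) + 8 * u (k + 1)) := by
    intro o ho
    rcases mem_union.mp ho with h1 | h1
    · rcases mem_union.mp h1 with h2 | h2
      · exact lt_of_lt_of_le (hO.bd o h2) (Nat.pow_le_pow_right (by norm_num) (by omega))
      · exact (hA.rng o h2).2
    · exact lt_of_lt_of_le (hRlt o h1) (Nat.pow_le_pow_right (by norm_num) (by omega))
  have hexp : 4 * a (k + 1) + 8 * u (k + 1) ≤ 6 * a k := by omega
  have hbig : ∀ i, ¬ a i ≤ 3 * a k → ∀ o ∈ O ∪ A ∪ R, o < (q i) ^ 2 := by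
    intro i hi o ho
    have h1 := hbd o ho
    have h2 : (2 : ℕ) ^ (4 * a (k + 1) + 8 * u (k + 1)) ≤ 2 ^ (2 * a i) :=
      Nat.pow_le_pow_right (by norm_num) (by omega)
    have h3 : (2 : ℕ) ^ (2 * a i) ≤ (q i) ^ 2 := by
      rw [mul_comm, pow_mul]
      exact Nat.pow_le_pow_left (hq i).2.1.le 2
    omega
  have hle24 : ∀ i, (q i) ^ 2 ≤ (q i) ^ 4 := fun i =>
    Nat.pow_le_pow_right (hq i).1.pos (by norm_num)
  -- numerics of the representations
  have hFs : 4096 ^ 2 * 2592 * Fs u k ≤ 2 ^ 62 * a k := by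
    have h1 : laT u k + 1 ≤ 14 * u k := by
      unfold laT
      omega
    unfold Fs Cs
    have h2 : 4096 ^ 2 * 2592 * (2 ^ 64 * (laT u k + 1)) ≤
        4096 ^ 2 * 2592 * (2 ^ 64 * (14 * u k)) :=
      Nat.mul_le_mul_left _ (Nat.mul_le_mul_left _ h1)
    refine h2.trans ?_
    have h3 : 4096 ^ 2 * 2592 * (2 ^ 64 * (14 * u k)) ≤ 2 ^ 62 * (2 ^ 42 * u k) := by
      have : 4096 ^ 2 * 2592 * (2 ^ 64 * (14 * u k)) = (4096 ^ 2 * 2592 * 2 ^ 64 * 14) * u k := by
        ring
      rw [this, ← mul_assoc]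
      exact Nat.mul_le_mul_right _ (by norm_num)
    exact h3.trans (Nat.mul_le_mul_left _ hu42)
  have hLR : 201 * LR a u e k ≤ 2 ^ 10 * a k := by
    unfold LR thT
    omega
  have hcr2 : 4096 * (t k * Dk κ k) ≤ a k := by omega
  refine ⟨hbd, ?_, ?_, ?_, ?_, ?_, ?_⟩
  · -- c2
    intro i hi r
    have hpos : 1 ≤ 2 ^ (4 * u i + 4 * e i) := Nat.one_le_two_pow
    by_cases hc : a i ≤ 3 * a k
    · rw [filter_union, filter_union]
      have h1 := hO.c2 i (by omega) r
      have h2 := hA.res2 i (by omega) hc r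
      have h3 := hR.res2 i (by omega) hc r
      have h4 := card_union_le (O.filter (fun o => o % (q i) ^ 2 = r) ∪
        A.filter (fun o => o % (q i) ^ 2 = r)) (R.filter (fun o => o % (q i) ^ 2 = r))
      have h5 := card_union_le (O.filter (fun o => o % (q i) ^ 2 = r))
        (A.filter (fun o => o % (q i) ^ 2 = r))
      have e1 : (k + 1 + 1) * (8192 * 2 ^ (4 * u i + 4 * e i))
        = (k + 1) * (8192 * 2 ^ (4 * u i + 4 * e i)) + 8192 * 2 ^ (4 * u i + 4 * e i) := by ring
      rw [e1]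
      omega
    · have h1 := card_class_le_one (O ∪ A ∪ R) ((q i) ^ 2) (hbig i hc) r
      refine h1.trans ?_
      exact Nat.mul_pos (by omega) (Nat.mul_pos (by norm_num) hpos)
  · -- c4
    intro i hi r
    unfold Dk
    by_cases hc : a i ≤ 3 * a k
    · rw [filter_union, filter_union]
      have h1 := hO.c4 i (by omega) r
      have h2 := hA.res4 i (by omega) hc r
      have h3 := hR.res4 i (by omega) hc r
      have h4 := card_union_le (O.filter (fun o => o % (q i) ^ 4 = r) ∪
        A.filter (fun o => o % (q i) ^ 4 = r)) (R.filter (fun o => o % (q i) ^ 4 = r))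
      have h5 := card_union_le (O.filter (fun o => o % (q i) ^ 4 = r))
        (A.filter (fun o => o % (q i) ^ 4 = r))
      unfold Dk at h1
      have e0 : (k + 1) * (8192 * (8 * κ k)) ≤ (k + 1) * (8192 * (8 * κ (k + 1))) :=
        Nat.mul_le_mul_left _ (by omega)
      have e1 : (k + 1 + 1) * (8192 * (8 * κ (k + 1)))
        = (k + 1) * (8192 * (8 * κ (k + 1))) + 8192 * (8 * κ (k + 1)) := by ring
      rw [e1]
      omega
    · have h1 := card_class_le_one (O ∪ A ∪ R) ((q i) ^ 4)
        (fun o ho => lt_of_lt_of_le (hbig i hc o ho) (hle24 i)) r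
      refine h1.trans ?_
      exact Nat.mul_pos (by omega) (Nat.mul_pos (by norm_num) (by omega))
  · -- rep
    intro n
    have h0 := repF_union3 O A R n
    by_cases hn : n < 2 ^ zR a u k
    · have hA0 : ∀ x ∈ A, n < x := by
        intro x hx
        have h1 := (hA.rng x hx).1
        have h2 : (2 : ℕ) ^ zR a u k ≤ 2 ^ (4 * a k + thT u e k) :=
          Nat.pow_le_pow_right (by norm_num) (by unfold zR thT; omega)
        omega
      have hR0 : ∀ x ∈ R, n < x := by
        intro x hx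
        have h1 := (hR.rng x hx).1
        omega
      have h1 : repF A n = 0 := cross_zero_of_gt hA0
      have h2 : repF R n = 0 := cross_zero_of_gt hR0
      have h3 : (crossF A O n).card = 0 := cross_zero_of_gt hA0
      have h4 : (crossF R O n).card = 0 := cross_zero_of_gt hR0
      have h5 : (crossF R A n).card = 0 := cross_zero_of_gt hR0
      have h6 := hO.rep n
      have h7 : 4 * Cs * a k ≤ 4 * Cs * a (k + 1) := Nat.mul_le_mul_left _ (by omega)
      omega
    · have h1 := hO.repl n (by omega)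
      have h2 := hA.self n
      have h3 := hR.self n
      have h4 := hA.cross n
      have h5 := hR.crossO n
      have h6 := hR.crossW n
      unfold Cs at h1 ⊢
      omega
  · -- repl
    intro n hn
    have h0 := repF_union3 O A R n
    rw [hz'] at hn
    have hsum : (2 : ℕ) ^ (4 * a k + 8 * u k + 64 * e k + 12) +
        2 ^ (4 * a k + 8 * u k + 64 * e k + 12) ≤ n := by
      rw [← two_mul, ← pow_succ']
      exact le_trans (Nat.pow_le_pow_right (by norm_num) (by omega)) hn
    have h1 : repF O n = 0 := cross_zero_of_lt (fun x hx y hy => by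
      have := hOlt x hx
      have := hOlt y hy
      omega)
    have h2 : repF R n = 0 := cross_zero_of_lt (fun x hx y hy => by
      have := hRlt x hx
      have := hRlt y hy
      omega)
    have h3 : (crossF R O n).card = 0 := cross_zero_of_lt (fun x hx y hy => by
      have := hRlt x hx
      have := hOlt y hy
      omega)
    have h4 := hA.self n
    have h5 := hA.cross n
    have h6 := hR.crossW n
    unfold Cs
    omega
  · -- cov
    intro n hn
    by_cases h1 : n < 2 ^ (4 * a k + 8 * u k - 8)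
    · obtain ⟨x, hx, y, hy, hxy⟩ := hO.cov n h1
      exact ⟨x, mem_union_left _ (mem_union_left _ hx), y,
        mem_union_left _ (mem_union_left _ hy), hxy⟩
    · by_cases h2 : n < 2 ^ LR a u e k
      · have h3 : (2 : ℕ) ^ (zR a u k + 2) ≤ 2 ^ (4 * a k + 8 * u k - 8) :=
          Nat.pow_le_pow_right (by norm_num) (by unfold zR; omega)
        obtain ⟨x, hx, y, hy, hxy⟩ := hR.cov n (by omega) h2
        exact ⟨x, mem_union_right _ hx, y, mem_union_right _ hy, hxy⟩
      · have h3 : (2 : ℕ) ^ (4 * a k + thT u e k + 8) ≤ 2 ^ LR a u e k :=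
          Nat.pow_le_pow_right (by norm_num) (by unfold LR; omega)
        have h4 : (2 : ℕ) ^ (4 * a (k + 1) + 8 * u (k + 1) - 8) ≤ 2 ^ (4 * a k + laT u k) :=
          Nat.pow_le_pow_right (by norm_num) (by unfold laT; omega)
        obtain ⟨x, hx, y, hy, hxy⟩ := hA.cov n (by omega) (by omega)
        exact ⟨x, mem_union_left _ (mem_union_right _ hx), y,
          mem_union_left _ (mem_union_right _ hy), hxy⟩
  · -- wn
    refine winLe_mono (winLe_union (winLe_union hO.wn hA.wn) hR.wn) ?_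
    have h1 : (2 : ℕ) ^ (13 * u k) ≤ 2 ^ (13 * u (k + 1)) :=
      Nat.pow_le_pow_right (by norm_num) (by omega)
    have h2 : (k + 1) * (2 * 2 ^ (13 * u k)) ≤ (k + 1) * (2 * 2 ^ (13 * u (k + 1))) :=
      Nat.mul_le_mul_left _ (by omega)
    have h3 : (2 : ℕ) ^ (e k + 2) ≤ 2 ^ (13 * u (k + 1)) :=
      Nat.pow_le_pow_right (by norm_num) (by omega)
    have h4 : (2 : ℕ) ^ (e k + 2) = 4 * 2 ^ e k := by
      rw [pow_add]; ring
    have h5 : 16 * LR a u e k ≤ 80 * a k := by
      unfold LR thT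
      omega
    have e1 : (k + 1 + 1) * (2 * 2 ^ (13 * u (k + 1)))
        = (k + 1) * (2 * 2 ^ (13 * u (k + 1))) + 2 * 2 ^ (13 * u (k + 1)) := by ring
    rw [e1]
    omega

end Pool.Agent.Helper64.FB
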